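import Pool.Agent.W425.IM.Stm
import Pool.Agent.W368.SL.L1

/-! IM-IL1: from formal power series to polynomials with a unit. -/

set_option autoImplicit false

namespace Pool.Agent.W563.IM

open MvPolynomial
open Pool.Agent.W425.IM
open Pool.Agent.W574.SM (weyl applyAt)
open Pool.Agent.W368.SL (ph ph_apply krull mulLeft_mem)

variable {n k : ℕ}

theorem mulLeft_weyl (c : MvPolynomial (Fin n) ℂ) : LinearMap.mulLeft ℂ c ∈ weyl (Fin n) :=
  mulLeft_mem c

/-- the Krull step for a family indexed by an arbitrary set -/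
theorem krull_family {ι : Type} {L : ℕ} (B : ι → MvPolynomial (Fin n) ℂ)
    (A : Fin L → ι → MvPolynomial (Fin n) ℂ) (p : Fin L → MvPowerSeries (Fin n) ℂ)
    (h : ∀ s, ph n (B s) = ∑ l, p l * ph n (A l s)) :
    ∃ (r : MvPolynomial (Fin n) ℂ) (c : Fin L → MvPolynomial (Fin n) ℂ),
      constantCoeff r = 0 ∧ ∀ s, (1 - r) * B s = ∑ l, c l * A l s := by
  classical
  set v : ι → MvPolynomial (Fin n) ℂ × (Fin L → MvPolynomial (Fin n) ℂ) :=
    fun s => (B s, fun l => A l s) with hv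
  have hfg : (Submodule.span (MvPolynomial (Fin n) ℂ) (Set.range v)).FG :=
    IsNoetherian.noetherian _
  obtain ⟨T, hT1, hT2⟩ := Submodule.fg_span_iff_fg_span_finset_subset (Set.range v) |>.1 hfg
  have hch : ∀ j : Fin T.card, ∃ s, v s = (T.equivFin.symm j : _) := fun j =>
    hT1 (T.equivFin.symm j).2
  choose σ hσ using hch
  obtain ⟨r, c, hr, hc⟩ := krull (fun j => B (σ j)) (fun l j => A l (σ j)) p (fun j => h (σ j))
  refine ⟨r, c, hr, fun s => ?_⟩
  let φ : (MvPolynomial (Fin n) ℂ × (Fin L → MvPolynomial (Fin n) ℂ)) →ₗ[MvPolynomial (Fin n) ℂ]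
      MvPolynomial (Fin n) ℂ :=
    (1 - r) • LinearMap.fst _ _ _ - ∑ l, c l • ((LinearMap.proj l).comp (LinearMap.snd _ _ _))
  have hφ : ∀ x, φ x = (1 - r) * x.1 - ∑ l, c l * x.2 l := by
    intro x
    simp only [φ, LinearMap.sub_apply, LinearMap.smul_apply, LinearMap.fst_apply,
      LinearMap.sum_apply, LinearMap.comp_apply, LinearMap.snd_apply, LinearMap.proj_apply,
      smul_eq_mul]
  have h1 : Submodule.span (MvPolynomial (Fin n) ℂ) (Set.range v) ≤ LinearMap.ker φ := by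
    rw [hT2, Submodule.span_le]
    intro x hx
    rw [SetLike.mem_coe, LinearMap.mem_ker, hφ]
    have h2 : v (σ (T.equivFin ⟨x, hx⟩)) = x := by
      rw [hσ, Equiv.symm_apply_apply]
    have h3 := hc (T.equivFin ⟨x, hx⟩)
    rw [← h2]
    rw [sub_eq_zero]
    exact h3
  have h2 := h1 (Submodule.subset_span ⟨s, rfl⟩)
  rw [LinearMap.mem_ker, hφ, sub_eq_zero] at h2
  exact h2

theorem applyAt_sum {L : ℕ} (F : Finset (Fin L)) (μ : Fin L → (Fin k →₀ ℕ))
    (W : Fin L → weyl (Fin n)) (s : Fin k → ℕ) (g : MvPolynomial (Fin n) ℂ) :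
    applyAt (∑ l ∈ F, Finsupp.single (μ l) (W l)) s g =
      ∑ l ∈ F, (∏ j, (s j : ℂ) ^ μ l j) • (W l : Module.End ℂ (MvPolynomial (Fin n) ℂ)) g := by
  unfold applyAt
  rw [← Finsupp.sum_finsetSum_index]
  · refine Finset.sum_congr rfl fun l _ => ?_
    rw [Finsupp.sum_single_index]
    rw [Subalgebra.coe_zero, LinearMap.zero_apply, smul_zero]
  · intro a
    rw [Subalgebra.coe_zero, LinearMap.zero_apply, smul_zero]
  · intro a x y
    rw [Subalgebra.coe_add, LinearMap.add_apply, smul_add]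

theorem il1 : S_IL1 := by
  classical
  intro n k f b hloc
  obtain ⟨L, c, μ, p, Q, hc, hQ⟩ := hloc
  set g : (Fin k → ℤ) → (Fin k → ℕ) → MvPolynomial (Fin n) ℂ := fun γ s =>
    C ((∏ j, (if γ j < 0 then (s j).choose (-γ j).toNat else 1) : ℕ) : ℂ) *
      ∏ j, f j ^ ((s j : ℤ) + γ j).toNat with hg
  obtain ⟨r, d, hr, hd⟩ := krull_family
    (fun s : Fin k → ℕ => C (b.eval ((∑ j, s j : ℕ) : ℂ)) * ∏ j, f j ^ s j)
    (fun l s => C (∏ j, (s j : ℂ) ^ μ l j) *
      (Q l : Module.End ℂ (MvPolynomial (Fin n) ℂ)) (g (c l) s)) p (by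
        intro s
        have h1 := hQ s
        rw [(ph n).map_mul, ph_apply, ph_apply, MvPolynomial.coe_C, h1]
        refine Finset.sum_congr rfl fun l _ => ?_
        rw [(ph n).map_mul, ph_apply, ph_apply, MvPolynomial.coe_C]
        ring)
  refine ⟨1 - r, Finset.univ.image c, fun γ => ∑ l with c l = γ,
    Finsupp.single (Finsupp.equivFunOnFinite.symm (μ l))
      (⟨LinearMap.mulLeft ℂ (d l), mulLeft_weyl _⟩ * Q l), ?_, ?_, ?_⟩
  · rw [map_sub, hr, map_one, sub_zero]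
  · intro γ hγ
    obtain ⟨l, _, rfl⟩ := Finset.mem_image.1 hγ
    exact hc l
  · intro s
    have h1 := hd s
    have h2 : ∀ γ, applyAt (∑ l with c l = γ,
        Finsupp.single (Finsupp.equivFunOnFinite.symm (μ l))
          ((⟨LinearMap.mulLeft ℂ (d l), mulLeft_weyl _⟩ : weyl (Fin n)) * Q l)) s (g γ s) =
        ∑ l with c l = γ, d l * (C (∏ j, (s j : ℂ) ^ μ l j) *
          (Q l : Module.End ℂ (MvPolynomial (Fin n) ℂ)) (g (c l) s)) := by
      intro γ
      rw [applyAt_sum]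
      refine Finset.sum_congr rfl fun l hl => ?_
      rw [(Finset.mem_filter.1 hl).2, smul_eq_C_mul]
      change C (∏ j, (s j : ℂ) ^ μ l j) * (d l *
        (Q l : Module.End ℂ (MvPolynomial (Fin n) ℂ)) (g γ s)) = _
      ring
    calc C (b.eval ((∑ j, s j : ℕ) : ℂ)) * (1 - r) * ∏ j, f j ^ s j
        = (1 - r) * (C (b.eval ((∑ j, s j : ℕ) : ℂ)) * ∏ j, f j ^ s j) := by ring
      _ = ∑ l, d l * (C (∏ j, (s j : ℂ) ^ μ l j) *
          (Q l : Module.End ℂ (MvPolynomial (Fin n) ℂ)) (g (c l) s)) := h1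
      _ = ∑ γ ∈ Finset.univ.image c, ∑ l with c l = γ, d l * (C (∏ j, (s j : ℂ) ^ μ l j) *
          (Q l : Module.End ℂ (MvPolynomial (Fin n) ℂ)) (g (c l) s)) := by
          rw [Finset.sum_fiberwise_of_maps_to fun l _ =>
            Finset.mem_image_of_mem c (Finset.mem_univ l)]
      _ = _ := Finset.sum_congr rfl fun γ _ => (h2 γ).symm

end Pool.Agent.W563.IM
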